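import Pool.Agent.EDG.Stmts

/-!
# Row MOB of the squad EDG (separability modulo 2 and the degree)
-/

set_option autoImplicit false

namespace Pool.Agent.EDG.H60

open Polynomial Finset

theorem it_two {R : Type} [CommRing R] (h2 : (2 : R) = 0) (b y : R) (i : ℕ) :
    it b y i = y ^ 2 ^ i := by
  induction i with
  | zero => rw [it_zero, pow_zero, pow_one]
  | succ i ih =>
    rw [it_succ, ih, h2, show 2 ^ (i + 1) = 2 ^ i * 2 from pow_succ 2 i, pow_mul]
    ring

/-- **Row MOB** -/
theorem mob : MobStmt := by
  classical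
  intro moa n g hc
  have hmon : (g.map (Int.castRingHom (ZMod 2))).Monic := hc.monic.map _
  constructor
  · have h2 : (2 : (ZMod 2)[X]) = 0 := by
      have : (2 : (ZMod 2)[X]) = C (2 : ZMod 2) := by rw [map_ofNat]
      rw [this, show (2 : ZMod 2) = 0 from rfl, C_0]
    have hY : ∀ i, (Yp i).map (Int.castRingHom (ZMod 2)) = (-X) ^ 2 ^ i := by
      intro i
      have h3 := it_map (mapRingHom (Int.castRingHom (ZMod 2))) (X : ℤ[X]) (-X) i
      rw [it_two h2] at h3
      simpa [Yp] using h3
    have hd : g.map (Int.castRingHom (ZMod 2)) ∣ (-X) ^ 2 ^ n - (-X) := by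
      have h4 := Polynomial.map_dvd (Int.castRingHom (ZMod 2)) hc.per
      rw [Polynomial.map_sub, hY n, hY 0, pow_zero, pow_one] at h4
      exact h4
    refine Separable.of_dvd ?_ hd
    rw [separable_def]
    have hder : derivative ((-X) ^ 2 ^ n - (-X) : (ZMod 2)[X]) = 1 := by
      have h5 : C (((2 ^ n : ℕ) : ZMod 2)) = (0 : (ZMod 2)[X]) := by
        rw [Nat.cast_pow, show ((2 : ℕ) : ZMod 2) = 0 from rfl, zero_pow hc.npos.ne', C_0]
      have h6 : derivative ((-X) ^ 2 ^ n : (ZMod 2)[X]) = 0 := by
        rw [derivative_pow, h5, zero_mul, zero_mul]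
      rw [derivative_sub, h6, derivative_neg, derivative_X]
      ring
    rw [hder]
    exact isCoprime_one_right
  · have hpos : (g.map (Int.castRingHom (ZMod 2))).degree ≠ 0 := by
      have h7 : (g.map (Int.castRingHom (ZMod 2))).natDegree = g.natDegree :=
        hc.monic.natDegree_map _
      intro h8
      have h9 := natDegree_eq_of_degree_eq_some h8
      rw [h7] at h9
      exact absurd h9 hc.natDegree_pos.ne'
    obtain ⟨θ, hθ⟩ := IsAlgClosed.exists_aeval_eq_zero (AlgebraicClosure (ZMod 2)) _ hpos
    have hθ' : aeval θ g = 0 := by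
      rw [aeval_def, eval₂_map] at hθ
      rw [aeval_def, ← hθ]
      congr 1
    have : CharP (AlgebraicClosure (ZMod 2)) 2 :=
      charP_of_injective_algebraMap (algebraMap (ZMod 2) (AlgebraicClosure (ZMod 2))).injective 2
    obtain ⟨-, hex⟩ := moa n g hc (AlgebraicClosure (ZMod 2)) θ hθ'
    have hroot : ∀ i, aeval (θ ^ 2 ^ i) g = 0 := by
      intro i
      have h10 := hom_eval₂ g (algebraMap ℤ (AlgebraicClosure (ZMod 2)))
        (iterateFrobenius (AlgebraicClosure (ZMod 2)) 2 i) θ
      rw [← aeval_def, hθ', map_zero, iterateFrobenius_def] at h10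
      rw [aeval_def, h10]
      congr 1
      exact RingHom.ext_int _ _
    have hinj : Set.InjOn (fun i => θ ^ 2 ^ i) (range n : Finset ℕ) := by
      have key : ∀ i j : ℕ, i < j → j < n → θ ^ 2 ^ i ≠ θ ^ 2 ^ j := by
        intro i j hij hj he
        refine hex (j - i) (by omega) (by omega) ?_
        apply iterateFrobenius_inj (AlgebraicClosure (ZMod 2)) 2 i
        rw [iterateFrobenius_def, iterateFrobenius_def, ← pow_mul, ← pow_add,
          show j - i + i = j by omega, ← he]
      intro i hi j hj he
      have hi' : i < n := by simpa using hi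
      have hj' : j < n := by simpa using hj
      rcases lt_trichotomy i j with h | h | h
      · exact absurd he (key i j h hj')
      · exact h
      · exact absurd he.symm (key j i h hi')
    have hm0 : g.map (algebraMap ℤ (AlgebraicClosure (ZMod 2))) ≠ 0 := (hc.monic.map _).ne_zero
    have hsub : (range n).image (fun i => θ ^ 2 ^ i) ⊆
        (g.map (algebraMap ℤ (AlgebraicClosure (ZMod 2)))).roots.toFinset := by
      intro x hx
      obtain ⟨i, -, rfl⟩ := mem_image.mp hx
      rw [Multiset.mem_toFinset, mem_roots hm0, IsRoot.def, eval_map_algebraMap]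
      exact hroot i
    calc n = ((range n).image (fun i => θ ^ 2 ^ i)).card := by
          rw [card_image_of_injOn hinj, card_range]
      _ ≤ (g.map (algebraMap ℤ (AlgebraicClosure (ZMod 2)))).roots.toFinset.card :=
          card_le_card hsub
      _ ≤ Multiset.card (g.map (algebraMap ℤ (AlgebraicClosure (ZMod 2)))).roots :=
          Multiset.toFinset_card_le _
      _ ≤ (g.map (algebraMap ℤ (AlgebraicClosure (ZMod 2)))).natDegree := card_roots' _
      _ = g.natDegree := hc.monic.natDegree_map _

end Pool.Agent.EDG.H60
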