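import Pool.Agent.EDG.StmtsC

/-!
# Row NCZ of the squad EDG (no common zeros)
-/

set_option autoImplicit false

open Polynomial

namespace Pool.Agent.EDG.H60

open Pool.Agent.EDG.C

/-- evaluation of `phi` -/
theorem ev_phi (evi : EviStmt) {B : Type} [CommRing B] [Algebra ℂ B] (c x : B) (n : ℕ) :
    ev c x (phi n) = (fc c)^[n] x - x := by
  have hX : ev c x (X : ℂ[X][X]) = x := by
    simp [ev]
  rw [phi, map_sub, evi.1 B c x n, hX]

/-- **Row NCZ** -/
theorem ncz (evi : C.EviStmt) (dua : C.DuaStmt) (hsu : C.HsuStmt) (cyi : C.CyiStmt)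
    (cyk : C.CykStmt) : C.NczStmt := by
  intro n R Q L hn hRQL hL c0 x0 hR hQ
  have h0 : (fc c0)^[n] x0 = x0 := by
    have h1 := ev_phi evi c0 x0 n
    rw [← hRQL, map_mul, map_mul, hR, zero_mul, zero_mul] at h1
    exact (sub_eq_zero.mp h1.symm)
  have hper : Function.IsPeriodicPt (fc c0) n x0 := h0
  have hkn : Function.minimalPeriod (fc c0) x0 ∣ n := hper.minimalPeriod_dvd
  have hk : 0 < Function.minimalPeriod (fc c0) x0 := hper.minimalPeriod_pos hn
  have hkper : (fc c0)^[Function.minimalPeriod (fc c0) x0] x0 = x0 :=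
    Function.isPeriodicPt_minimalPeriod (fc c0) x0
  have hmin : ∀ j, 0 < j → j < Function.minimalPeriod (fc c0) x0 → (fc c0)^[j] x0 ≠ x0 := by
    intro j hj hjk hjx
    exact Function.not_isPeriodicPt_of_pos_of_lt_minimalPeriod hj.ne' hjk hjx
  generalize Function.minimalPeriod (fc c0) x0 = k at hkn hk hkper hmin
  rcases (Nat.le_of_dvd hn hkn).eq_or_lt with hkeq | hklt
  · subst hkeq
    refine cyi c0 x0 k hn hkper hmin fun a b => ?_
    have h2 := dua R Q L c0 x0 a b hR hQ
    rw [hRQL, ev_phi evi] at h2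
    exact h2
  · obtain ⟨L', hL'⟩ := hL k hkn hklt
    obtain ⟨N, hN⟩ := hkn
    have hN0 : 0 < N := by
      rcases Nat.eq_zero_or_pos N with h | h
      · subst h
        rw [mul_zero] at hN
        omega
      · exact h
    have hphi : phi k ≠ 0 := (evi.2.2.1 k hk).1.ne_zero
    have h3 : phi k * (R * Q * L') = phi k * hsum k N := by
      rw [← hsu k N, ← hN, ← hRQL, hL']
      ring
    have h4 : R * Q * L' = hsum k N := mul_left_cancel₀ hphi h3
    refine cyk c0 x0 k N hk hN0 hkper hmin fun a b => ?_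
    rw [← h4]
    exact dua R Q L' c0 x0 a b hR hQ

end Pool.Agent.EDG.H60
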